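import Pool.Agent.T9h16.QL.Spec2

set_option autoImplicit false

/-!
# (X7L) The theorem about slices for every density, from (X5) and (X6L)
-/

namespace Pool.Agent.T9h35.QL

open Finset
open Pool.Agent.PC34 (prob withClique labelGraph)
open Pool.Agent.T9h34 (graphInput)
open Pool.Agent.HC34 (srcs IsLevel DepthLE)
open Pool.Agent.T9h34.Q
open Pool.Agent.T9h16.QL

theorem stP7L : StP5 → StP6L → StP7L := by
  intro h5 h6
  obtain ⟨c, hc, h6⟩ := h6
  refine ⟨c, hc, ?_⟩
  intro n k f d' DA T a L A α hn hk hT hf hA hd hD ha haL hα hα1 hadv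
  obtain ⟨θ, hθ⟩ := h6 n k (2 ^ T) a L hn hk Nat.one_le_two_pow hT ha haL
    (fun G => A.eval (graphInput G) = true) α hα hα1 hadv
  obtain ⟨C, hC1, hC2, hC3, hC4, hC5⟩ := h5 (Fin n × Fin n) f d' DA T θ A hf hA hd hD
  refine ⟨C, hC1, hC2, ?_, ?_, ?_⟩
  · have hcard : Fintype.card (Fin n × Fin n) = n * n := by
      simp
    rw [hcard] at hC3
    have hTn : T ≤ n := le_trans (le_of_lt Nat.lt_two_pow_self) hT
    refine le_trans hC3 ?_
    have h4 : n ^ 4 = (n * n) * (n * n) := by ring
    rw [h4]
    set N := n * n with hN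
    have hN4 : 4 ≤ N := by
      rw [hN]; nlinarith
    have hnN : n ≤ N := by
      rw [hN]; nlinarith
    nlinarith
  · have hcard : Fintype.card (Fin n × Fin n) = n * n := by
      simp
    rw [hcard] at hC4
    have hTl : T ≤ Nat.log 2 n := Nat.le_log_of_pow_le (by norm_num) hT
    have hcl : Nat.clog 2 (n * n) ≤ 2 * Nat.log 2 n + 2 := by
      apply Nat.clog_le_of_le_pow
      have h1 : n < 2 ^ (Nat.log 2 n + 1) := Nat.lt_pow_succ_log_self (by norm_num) n
      calc n * n ≤ 2 ^ (Nat.log 2 n + 1) * 2 ^ (Nat.log 2 n + 1) :=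
            Nat.mul_le_mul (le_of_lt h1) (le_of_lt h1)
        _ = 2 ^ (2 * Nat.log 2 n + 2) := by
            rw [← pow_add]; congr 1; ring
    obtain ⟨lev, hl1, hl2⟩ := hC4
    exact ⟨lev, fun j hj => lt_of_lt_of_le (hl1 j hj) (by omega), hl2⟩
  · have e1 : prob (fun lab : Sym2 (Fin n) → Fin L =>
        C.eval (graphInput (labelGraph lab a)) = true) =
        prob (fun lab : Sym2 (Fin n) → Fin L => θ + 2 ^ T ≤ ones (graphInput (labelGraph lab a)) ∨
      (θ ≤ ones (graphInput (labelGraph lab a)) ∧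
        ones (graphInput (labelGraph lab a)) < θ + 2 ^ T ∧
        A.eval (graphInput (labelGraph lab a)) = true)) := by
      congr 1
      funext lab
      exact propext (hC5 _)
    have e2 : prob (fun x : (Sym2 (Fin n) → Fin L) × {S : Finset (Fin n) // S.card = k} =>
        C.eval (graphInput (withClique (labelGraph x.1 a) x.2.1)) = true) =
      prob (fun x : (Sym2 (Fin n) → Fin L) × {S : Finset (Fin n) // S.card = k} =>
      θ + 2 ^ T ≤ ones (graphInput (withClique (labelGraph x.1 a) x.2.1)) ∨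
      (θ ≤ ones (graphInput (withClique (labelGraph x.1 a) x.2.1)) ∧
        ones (graphInput (withClique (labelGraph x.1 a) x.2.1)) < θ + 2 ^ T ∧
          A.eval (graphInput (withClique (labelGraph x.1 a) x.2.1)) = true)) := by
      congr 1
      funext x
      exact propext (hC5 _)
    rw [e1, e2]
    have h := hθ
    push_cast at h
    exact h

end Pool.Agent.T9h35.QL
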